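import Pool.Agent.Y538.Bd.Calc

set_option autoImplicit false

/-!
# Matrix multiplication by networks of smooth gates with bounded derivatives

Definitions: `Pairs` is in `Pool.Agent.Y538.Net.Defs`; `pd`, `unit`, `gradSq`, `OneMatrix`,
`Network`, `Bounded`, `unbounded`, `Gives` are in `Pool.Agent.Y538.Bd.Defs`.
-/

namespace Pool.Agent.Results.MP_e72dc0_lc.BoundedDerivatives

open Topology Filter Pool.Agent.Y538.Net Pool.Agent.Y538.Fun Pool.Agent.Y538.Bd

/-- A network gets a pair `x = (A, B)` of real `m × m` matrices. Each of its `N.L` gates applies an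
arbitrary map `ℝ ^ a → ℝ`, twice continuously differentiable at the values that occur, to results of
earlier gates and to functions of `A` alone or of `B` alone, which are free. A gate is bounded by `K`
at `x` if the sums of the absolute values of the first partial derivatives and of the second partial
derivatives of this map, at the values of the inputs of the gate, are at most `K`, and if the free
functions which it uses have gradients of Euclidean norm at most `K` at `x`; `N.unbounded K x` is the
number of the other gates. Let `θ > 0`, `K ≥ 1`, let `m` be large (depending on `θ`, `K`, `κ`), let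
`a ≤ m ^ κ`, and let `Ω` be a set of at least `θ m ^ 2` positions.
(1) If a network gives the entries `(A B) z`, `z ∈ Ω`, for all inputs near `x`, and all but
`c m ^ 2` of its gates are bounded by `K` at `x`, where `c = θ ^ 2 / (4800 log (2 K))`, then it has
at least `c m ^ 2 log m` gates.
(2) For countably many networks, the inputs at which at least one of the networks gives the entries
`(A B) z`, `z ∈ Ω`, has at most `c m ^ 2` gates not bounded by `K` and less than `c m ^ 2 log m`
gates form a meagre set. -/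
theorem result (θ K : ℝ) (κ : ℕ) (hθ : 0 < θ) (hK : 1 ≤ K) :
    ∃ m₀ : ℕ, ∀ m : ℕ, m₀ ≤ m → ∀ a : ℕ, a ≤ m ^ κ → ∀ Ω : Finset (Fin m × Fin m),
      θ * (m : ℝ) ^ 2 ≤ Ω.card →
      (∀ (N : Network m a) (x : Pairs ℝ m), (∀ᶠ y in 𝓝 x, N.Gives Ω y) →
        (N.unbounded K x : ℝ) ≤ θ ^ 2 / (4800 * Real.log (2 * K)) * (m : ℝ) ^ 2 →
        θ ^ 2 / (4800 * Real.log (2 * K)) * (m : ℝ) ^ 2 * Real.log m ≤ N.L) ∧
      ∀ N : ℕ → Network m a, IsMeagre {x | ∃ w, (N w).Gives Ω x ∧
        ((N w).unbounded K x : ℝ) ≤ θ ^ 2 / (4800 * Real.log (2 * K)) * (m : ℝ) ^ 2 ∧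
        ((N w).L : ℝ) < θ ^ 2 / (4800 * Real.log (2 * K)) * (m : ℝ) ^ 2 * Real.log m} := by
  obtain ⟨m₀, H⟩ := Network.local_lower hθ hK κ
  refine ⟨m₀, fun m hm a ha Ω hΩ => ⟨fun N x hx hu => ?_, fun N => ?_⟩⟩
  · refine H m hm a ha N Ω hΩ x hx.self_of_nhds.1 (fun z hz => ?_) hu
    filter_upwards [hx] with y hy
    exact hy.2 z hz
  · let Z : ℕ → Set (Pairs ℝ m) := fun w => {y | ∀ z ∈ Ω, (N w).F z y = mm y z.1 z.2}
    have hme : IsMeagre (⋃ w, (Z w \ interior (closure (Z w)))) :=
      isMeagre_iUnion fun w => (nowhere (Z w)).isMeagre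
    refine hme.mono ?_
    rintro x ⟨w, hG, hu, hL⟩
    refine Set.mem_iUnion.mpr ⟨w, hG.2, fun hx => ?_⟩
    exact absurd (H m hm a ha (N w) Ω hΩ x hG.1 ((N w).right_nearby hG.1 hx) hu) (not_le.mpr hL)

end Pool.Agent.Results.MP_e72dc0_lc.BoundedDerivatives
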