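import Pool.Agent.Y538.Fun.GradFinal

set_option autoImplicit false

/-!
# Matrix multiplication with smooth gates: the ranks of the gradients of the inputs of the gates

Definitions: `Pairs` is in `Pool.Agent.Y538.Net.Defs`; `mm`, `Free` are in
`Pool.Agent.Y538.Fun.Defs`; `NetU`, `rkA`, `rkB`, `Network`, `Gives`, `sumA`, `sumB`, `aboveA`,
`aboveB`, `entries` in `Pool.Agent.Y538.Fun.GradDefs`.
-/

namespace Pool.Agent.Results.MP_e72dc0_lc.GradientRanks

open Finset Pool.Agent.Y538.Net Pool.Agent.Y538.Fun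

/-- A network `N` consists of `N.L` gates, each of which is an arbitrary map `𝕜 ^ a → 𝕜 ^ b`, twice
continuously differentiable at the values that occur; linear operations and all twice continuously
differentiable functions of the first matrix `A` alone and of the second matrix `B` alone are free.
There are countably many networks `N 0, N 1, …`. `rkA f x` (`rkB f x`) is the rank of the `n × n`
matrix of the partial derivatives of `f` at `x` with respect to the entries of `A` (of `B`),
`sumA`, `sumB` are the sums of these ranks over all inputs of all gates, `aboveA r`, `aboveB r`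
the numbers of gates which have an input whose rank is larger than `r`.
(1) For all inputs outside a meagre set each network which gives `A B` at this input satisfies
`n ^ 3 ≤ min (a, b) sumA`, `n ^ 3 ≤ min (a, b) sumB` and, for all `r`,
`n ^ 3 ≤ a min (a, b) (r L + n aboveA r)`, `n ^ 3 ≤ a min (a, b) (r L + n aboveB r)`.
(2) Let `𝕜 = ℝ` or `ℂ`. For all inputs outside a meagre set at which `Φ` is twice continuously
differentiable with surjective derivative at `A B`, each network which gives the `d` numbers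
`Φ (A B)` satisfies `n (d - n) ≤ 4 min (a, b) (sumA + sumB)` and, for all `r`,
`n (d - n) ≤ 4 a min (a, b) (2 r L + n (aboveA r + aboveB r))`.
(3) The school method has `a = 2`, `b = 1`, `L = n ^ 3` and `sumA, sumB ≤ n ^ 3`, so that the
first two inequalities in (1) are sharp. -/
theorem result :
    (∀ (𝕜 : Type) [NontriviallyNormedField 𝕜] (n a b : ℕ)
      (N : ℕ → Network 𝕜 n a b (Fin n × Fin n)),
      IsMeagre {x : Pairs 𝕜 n | ∃ w, (N w).Gives entries x ∧
        ¬ ((n ^ 3 ≤ min a b * (N w).sumA x ∧ n ^ 3 ≤ min a b * (N w).sumB x) ∧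
          ∀ r : ℕ, n ^ 3 ≤ a * min a b * (r * (N w).L + n * (N w).aboveA r x) ∧
            n ^ 3 ≤ a * min a b * (r * (N w).L + n * (N w).aboveB r x))}) ∧
    (∀ (𝕜 : Type) [RCLike 𝕜] (n a b d : ℕ) (Φ : (Fin n → Fin n → 𝕜) → Fin d → 𝕜)
      (N : ℕ → Network 𝕜 n a b (Fin d)),
      IsMeagre {x : Pairs 𝕜 n | ContDiffAt 𝕜 2 Φ (mm x) ∧
        Function.Surjective (fderiv 𝕜 Φ (mm x)) ∧ ∃ w, (N w).Gives Φ x ∧
        ¬ (n * (d - n) ≤ 4 * min a b * ((N w).sumA x + (N w).sumB x) ∧
          ∀ r : ℕ, n * (d - n) ≤ 4 * a * min a b * (2 * r * (N w).L +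
            n * ((N w).aboveA r x + (N w).aboveB r x)))}) ∧
    (∀ (𝕜 : Type) [NontriviallyNormedField 𝕜] (n : ℕ), ∃ N : Network 𝕜 n 2 1 (Fin n × Fin n),
      N.L = n ^ 3 ∧ ∀ x, N.Gives entries x ∧ N.sumA x ≤ n ^ 3 ∧ N.sumB x ≤ n ^ 3) := by
  refine ⟨?_, ?_, fun 𝕜 _ n => ?_⟩
  · intro 𝕜 _ n a b N
    refine (product_meagre (L := fun w => (N w).L) (D := fun w => (N w).D) (u := fun w => (N w).u)
      (g := fun w => (N w).g) (F := fun w i j => (N w).F (i, j))
      (fun w => ⟨(N w).net, fun i j => (N w).out (i, j)⟩)).mono ?_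
    rintro x ⟨w, ⟨hw, hF⟩, hnot⟩
    refine ⟨w, hw, fun i j => hF (i, j), fun hb => hnot ⟨hb, fun r => ⟨?_, ?_⟩⟩⟩
    · refine hb.1.trans ((Nat.mul_le_mul_left _ (sum_threshold (N w).L r
        (fun l i => rkA ((N w).u l i) x) (fun l i => rkA_le _ _))).trans (le_of_eq ?_))
      unfold Network.aboveA
      ring
    · refine hb.2.trans ((Nat.mul_le_mul_left _ (sum_threshold (N w).L r
        (fun l i => rkB ((N w).u l i) x) (fun l i => rkB_le _ _))).trans (le_of_eq ?_))
      unfold Network.aboveB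
      ring
  · intro 𝕜 _ n a b d Φ N
    refine (function_meagre (Φ := Φ) (L := fun w => (N w).L) (D := fun w => (N w).D)
      (u := fun w => (N w).u) (g := fun w => (N w).g) (F := fun w => (N w).F)
      (fun w => ⟨(N w).net, (N w).out⟩)).mono ?_
    rintro x ⟨h1, h2, w, ⟨hw, hF⟩, hnot⟩
    refine ⟨h1, h2, w, hw, hF, fun hb => hnot ?_⟩
    have h3 : n * (d - n) ≤ 4 * min a b * ((N w).sumA x + (N w).sumB x) := by
      refine hb.trans (le_of_eq ?_)
      unfold Network.sumA Network.sumB
      rw [← Finset.sum_add_distrib]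
      simp only [← Finset.sum_add_distrib]
      ring
    refine ⟨h3, fun r => h3.trans ?_⟩
    have h4 := sum_threshold (N w).L r (fun l i => rkA ((N w).u l i) x) (fun l i => rkA_le _ _)
    have h5 := sum_threshold (N w).L r (fun l i => rkB ((N w).u l i) x) (fun l i => rkB_le _ _)
    calc 4 * min a b * ((N w).sumA x + (N w).sumB x) ≤
        4 * min a b * (a * (r * (N w).L + n * (N w).aboveA r x) +
          a * (r * (N w).L + n * (N w).aboveB r x)) :=
          Nat.mul_le_mul_left _ (Nat.add_le_add h4 h5)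
      _ = _ := by ring
  · obtain ⟨u, g, F, h1, h2, h3⟩ := school (𝕜 := 𝕜) n
    refine ⟨⟨n ^ 3, Set.univ, u, g, fun o => F o.1 o.2, h1, fun o => h2 o.1 o.2⟩, rfl, fun x =>
      ⟨⟨Set.mem_univ _, fun o => (h3 x).1 o.1 o.2⟩, (h3 x).2.1, (h3 x).2.2⟩⟩

end Pool.Agent.Results.MP_e72dc0_lc.GradientRanks
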