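import Pool.Agent.Y624.MixTight

/-!
# Matrix multiplication: many indices pass through the products, and the bounds are tight

Circuits in which linear combinations are free (`Circ`), the sets `rowsThrough`, `colsThrough` and
`inner` are defined in `Pool.Agent.Y624.MixDefs`; `Vars m` (the entries of two generic
`m × m` matrices `A`, `B`) in `Pool.Agent.H88R3.MM.Circ`.

Let a circuit with `N` products multiply two `m × m` matrices over a field.

1. For every product count the indices `i` such that the product reads an entry of row `i` of `A`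
   and is used for an entry of row `i` of `A B`. The sum is at least `m ^ 3 / 2`.
2. The same for the columns of `B` and of `A B`.
3. For every product count the inner indices `k` which occur in both factors. The sum is at least
   `m ^ 3`. In particular circuits in which every product has a factor with at most `κ` inner
   indices need `m ^ 3 / κ` products, and `m ^ 3` products if one factor is always an entry.
4. These bounds are tight up to the factor `2` in 1 and 2, and up to `1 + o(1)` in 3, as long as
   few indices are counted: for `κ ^ (d + 8) ≤ m` and large `m` there are circuits with at most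
   `(1 + 11 / d) m ^ 3 / κ` products in which at most `κ` indices are counted for every product.
-/

set_option autoImplicit false

namespace Pool.Agent.Results.MP_e72dc0_lc.IndexFlow

open Pool.Agent.H88R3.MM Pool.Agent.Y624.Mix

theorem result.{u} :
    -- all circuits
    (∀ (F : Type u) [Field F] (m N : ℕ) (C : Circ F (Vars m) N)
      (out : Fin m → Fin m → Form F (Vars m) N), Multiplies C out →
        m ^ 3 ≤ 2 * ∑ t, (rowsThrough C out t).card ∧
        m ^ 3 ≤ 2 * ∑ t, (colsThrough C out t).card ∧
        m ^ 3 ≤ ∑ t, (inner (C.leftPoly t) ∩ inner (C.rightPoly t)).card) ∧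
    -- circuits which show that these bounds are tight
    (∀ d : ℕ, 2 ≤ d → ∃ m₀ : ℕ, ∀ m ≥ m₀, ∀ κ : ℕ, 1 ≤ κ → κ ^ (d + 8) ≤ m →
      ∀ (F : Type u) [Field F],
        (∃ (N : ℕ) (C : Circ F (Vars m) N) (out : Fin m → Fin m → Form F (Vars m) N),
          Multiplies C out ∧ d * (N * κ) ≤ (d + 11) * m ^ 3 ∧
            ∀ t, (rowsThrough C out t).card ≤ κ) ∧
        (∃ (N : ℕ) (C : Circ F (Vars m) N) (out : Fin m → Fin m → Form F (Vars m) N),
          Multiplies C out ∧ d * (N * κ) ≤ (d + 11) * m ^ 3 ∧
            ∀ t, (colsThrough C out t).card ≤ κ) ∧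
        ∃ (N : ℕ) (C : Circ F (Vars m) N) (out : Fin m → Fin m → Form F (Vars m) N),
          Multiplies C out ∧ d * (N * κ) ≤ (d + 11) * m ^ 3 ∧
            ∀ t, (inner (C.leftPoly t) ∪ inner (C.rightPoly t)).card ≤ κ) := by
  refine ⟨fun F _ m N C out hC =>
    ⟨rows_bound C out hC, cols_bound C out hC, inner_sum_bound C out hC⟩, fun d hd => ?_⟩
  obtain ⟨m₀, h⟩ := exists_rect.{u} d hd
  refine ⟨m₀, fun m hm κ h1 h2 F _ => ?_⟩
  obtain ⟨h3, r, hr, hMR⟩ := h m hm κ h1 h2
  refine ⟨?_, ?_, ?_⟩
  · obtain ⟨C, out, hC, ht, -⟩ := rows_up h1 (hMR F)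
    exact ⟨_, C, out, hC, numeric hr h3, ht⟩
  · obtain ⟨C, out, hC, ht, -⟩ := cols_up h1 (hMR F)
    exact ⟨_, C, out, hC, numeric hr h3, ht⟩
  · obtain ⟨C, out, hC, ht⟩ := inner_up h1 (hMR F)
    exact ⟨_, C, out, hC, numeric hr h3, ht⟩

end Pool.Agent.Results.MP_e72dc0_lc.IndexFlow
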