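import Mathlib
import Pool.Agent.Y633.MM.Defs
import Pool.Agent.Y633.MM.Main

/-!
# Matrix multiplication has no layered networks of linear size, with algebraic gates of unbounded
fan-in and at any depth

`Net m`: networks for two `m × m` matrices; a gate may read any number of matrix entries and of
values of other gates, and computes an arbitrary algebraic function of them over the field `F`
(sums, products, quotients, roots, ...).  The input size is `n = m²`, and `numWires` is the size of
the network.

For all constants `c`, `D` and every function `d` there is a constant `M` such that for all large
`m`, over all fields, the following holds for every network with at most `c * m²` wires which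
computes at least `m² / D` entries of the product of two generic `m × m` matrices.  Schedule the
gates in parallel, gate `v` at time `time v`; matrix entries may be read at any time.  Then, for
some `j ≤ M`, some directed path with more than `d j` shared gates (gates whose value is used more
than once) is traversed during a period in which more than `m² / j` algebraically independent values
are stored all the time.  In particular the sum over all times of the number of algebraically
independent stored values is more than `c * m²`.  All this holds even if a set `E` of `m² / M` gates
can provide arbitrary values for free, which are stored for free.

Two special cases.  A network in which every wire between gates joins consecutive layers (matrix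
entries may be read in all layers) has a number of wires which is superlinear in the input size
`m²`, however deep it is.  And so has a network in which no directed path has more than a constant
number of shared gates; this includes networks of constant depth.
-/

namespace Pool.Agent.Results.MP_e72dc0_lc.LayeredNetworks

open Finset Pool.Agent.Y633.MM

theorem result (D c : ℕ) (d : ℕ → ℕ) : ∃ M m₀ : ℕ, 1 ≤ M ∧
    ∀ (F L : Type) [Field F] [Field L] [Algebra F L] (m : ℕ), m₀ ≤ m → ∀ x : Var m → L,
    AlgebraicIndependent F x → ∀ (C : Net m) (P : Fin C.size → L) (E : Finset (Fin C.size)),
    C.Computes F x P E → ∀ V : Finset (Fin m × Fin m), m * m ≤ D * V.card →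
    C.GivesProduct x P V → C.numWires ≤ c * (m * m) → M * E.card ≤ m * m →
    ∀ time : Fin C.size → ℕ, (∀ v a u, C.src v a = Sum.inr u → u ∉ E → time u < time v) →
      -- a long path through times at which many independent values are stored
      (∃ j, 1 ≤ j ∧ j ≤ M ∧ ∃ l : List (Fin C.size),
        l.IsChain (fun u v => ∃ a, C.src v a = Sum.inr u) ∧ (∀ v ∈ l, v ∉ E) ∧
        d j < l.countP (fun v => 2 ≤ C.fanOut V v) ∧
        ∀ u ∈ l, ∀ v ∈ l, ∀ τ, time u ≤ τ → τ < time v →
          m * m < j * C.indep F P E time τ) ∧
      -- the total storage
      (∀ T, (∀ v, time v ≤ T) → c * (m * m) < ∑ τ ∈ range T, C.indep F P E time τ) ∧
      -- the network is not layered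
      ¬ ∀ v a u, C.src v a = Sum.inr u → u ∉ E → time v = time u + 1 :=
  mm_bound D c d

end Pool.Agent.Results.MP_e72dc0_lc.LayeredNetworks
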